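import Pool.Agent.helper73.AD.Basic

/-!
Module ad:MAIN of the project MP_a29257_gt: theorem A from SA, SB and FI.
-/

namespace Pool.Agent.helper73.AD

theorem MAIN_of (hSA : SA_stmt) (hSB : SB_stmt) (hFI : FI_stmt) : MAIN_stmt := by
  intro J K _ _ _ _ D Φ Ψ hΔ
  obtain ⟨S, hH, he, hb⟩ := hSA J K D
  obtain ⟨Φ', hΦ'⟩ := hSB J K D S hH he hb Φ
  obtain ⟨Ψ', hΨ'⟩ := hSB J K D S hH he hb Ψ
  have h := hFI J K S Φ' Ψ' (by rw [hΦ', hΨ', hb]; exact hΔ)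
  rw [hΦ', hΨ'] at h
  exact h

end Pool.Agent.helper73.AD
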